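import Mathlib

/-!
Copyless cost register automata over the rationals (definitions as in the problem file).
-/

namespace Pool.Agent.P.MP_32a6cf_lc

/-- Terms built from the registers `x_i` (`i : Fin d`) and rational constants with `+` and `·`. -/
inductive Term (d : ℕ) : Type
  | var : Fin d → Term d
  | const : ℚ → Term d
  | add : Term d → Term d → Term d
  | mul : Term d → Term d → Term d

/-- The value of a term at register values `x`. -/
def Term.eval {d : ℕ} (x : Fin d → ℚ) : Term d → ℚ
  | .var i => x i
  | .const c => c
  | .add s t => s.eval x + t.eval x
  | .mul s t => s.eval x * t.eval x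

/-- The number of occurrences of the register `x_i` in a term. -/
def Term.occ {d : ℕ} (i : Fin d) : Term d → ℕ
  | .var j => if j = i then 1 else 0
  | .const _ => 0
  | .add s t => s.occ i + t.occ i
  | .mul s t => s.occ i + t.occ i

/-- A copyless cost register automaton over `ℚ` with alphabet `A`, state set `Q` and
`d` registers. -/
structure CCRA (A Q : Type) (d : ℕ) where
  /-- initial state -/
  q0 : Q
  /-- next state -/
  next : Q → A → Q
  /-- the update tuple `(p^1, …, p^d)` of the transition -/
  upd : Q → A → Fin d → Term d
  /-- initial register values -/
  init : Fin d → ℚ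
  /-- output term of a state -/
  out : Q → Term d
  /-- each register occurs at most once in the whole update tuple -/
  upd_copyless : ∀ q a i, ∑ j, (upd q a j).occ i ≤ 1
  /-- each register occurs at most once in an output term -/
  out_copyless : ∀ q i, (out q).occ i ≤ 1

/-- One step: read the letter `a` in configuration `c = (state, register values)`;
all registers are updated simultaneously. -/
def CCRA.step {A Q : Type} {d : ℕ} (M : CCRA A Q d) (c : Q × (Fin d → ℚ)) (a : A) :
    Q × (Fin d → ℚ) :=
  (M.next c.1 a, fun j => (M.upd c.1 a j).eval c.2)

/-- The value of the automaton on the word `w`, read from left to right. -/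
def CCRA.value {A Q : Type} {d : ℕ} (M : CCRA A Q d) (w : List A) : ℚ :=
  (M.out (w.foldl M.step (M.q0, M.init)).1).eval (w.foldl M.step (M.q0, M.init)).2

/-- `f` is recognisable by a `ℚ`-CCRA with finitely many states. -/
def Recognisable {A : Type} (f : List A → ℚ) : Prop :=
  ∃ (Q : Type) (_ : Finite Q) (d : ℕ) (M : CCRA A Q d), ∀ w, M.value w = f w

end Pool.Agent.P.MP_32a6cf_lc
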