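import Pool.Agent.P.MP_32a6cf_lc.Defs

namespace Pool.Agent.P.MP_32a6cf_lc

open Function

variable {d : ℕ}

theorem Term.eval_update_of_occ_zero (x : Fin d → ℚ) (i : Fin d) (s : ℚ) :
    ∀ t : Term d, t.occ i = 0 → t.eval (update x i s) = t.eval x
  | .var j, h => by
      have hj : j ≠ i := by
        intro hj
        simp [Term.occ, hj] at h
      simp [Term.eval, update_of_ne hj]
  | .const _, _ => rfl
  | .add a b, h => by
      simp only [Term.occ, Nat.add_eq_zero_iff] at h
      simp only [Term.eval, eval_update_of_occ_zero x i s a h.1,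
        eval_update_of_occ_zero x i s b h.2]
  | .mul a b, h => by
      simp only [Term.occ, Nat.add_eq_zero_iff] at h
      simp only [Term.eval, eval_update_of_occ_zero x i s a h.1,
        eval_update_of_occ_zero x i s b h.2]

theorem Term.affine_of_occ_le_one (x : Fin d → ℚ) (i : Fin d) :
    ∀ t : Term d, t.occ i ≤ 1 → ∃ α β : ℚ, ∀ s, t.eval (update x i s) = α * s + β
  | .var j, _ => by
      by_cases hj : j = i
      · subst hj
        exact ⟨1, 0, fun s => by simp [Term.eval]⟩
      · exact ⟨0, x j, fun s => by simp [Term.eval, update_of_ne hj]⟩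
  | .const c, _ => ⟨0, c, fun s => by simp [Term.eval]⟩
  | .add a b, h => by
      simp only [Term.occ] at h
      obtain ⟨α, β, h1⟩ := affine_of_occ_le_one x i a (by omega)
      obtain ⟨α', β', h2⟩ := affine_of_occ_le_one x i b (by omega)
      exact ⟨α + α', β + β', fun s => by simp only [Term.eval, h1, h2]; ring⟩
  | .mul a b, h => by
      simp only [Term.occ] at h
      rcases Nat.eq_zero_or_pos (a.occ i) with ha | ha
      · obtain ⟨α', β', h2⟩ := affine_of_occ_le_one x i b (by omega)
        exact ⟨a.eval x * α', a.eval x * β', fun s => by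
          simp only [Term.eval, h2, eval_update_of_occ_zero x i s a ha]; ring⟩
      · have hb : b.occ i = 0 := by omega
        obtain ⟨α, β, h1⟩ := affine_of_occ_le_one x i a (by omega)
        exact ⟨α * b.eval x, β * b.eval x, fun s => by
          simp only [Term.eval, h1, eval_update_of_occ_zero x i s b hb]; ring⟩

/-- `F` is a copyless map whose register `i` flows to `φ i`. -/
structure Good (φ : Fin d → Option (Fin d)) (F : (Fin d → ℚ) → Fin d → ℚ) : Prop where
  dep : ∀ i j x s, φ i ≠ some j → F (update x i s) j = F x j
  aff : ∀ i j x, ∃ α β : ℚ, ∀ s, F (update x i s) j = α * s + β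

theorem Good.id : Good (fun i : Fin d => some i) (fun x => x) where
  dep i j x s h := by
    have : j ≠ i := fun e => h (by rw [e])
    simp [update_of_ne this]
  aff i j x := by
    by_cases h : j = i
    · subst h
      exact ⟨1, 0, fun s => by simp⟩
    · exact ⟨0, x j, fun s => by simp [update_of_ne h]⟩

theorem Good.update_eq {φ : Fin d → Option (Fin d)} {F : (Fin d → ℚ) → Fin d → ℚ}
    (h : Good φ F) (i : Fin d) (x : Fin d → ℚ) :
    (φ i = none ∧ ∀ s, F (update x i s) = F x) ∨
      ∃ j α β, φ i = some j ∧ ∀ s, F (update x i s) = update (F x) j (α * s + β) := by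
  cases hi : φ i with
  | none =>
    left
    refine ⟨rfl, fun s => funext fun j => h.dep i j x s (by simp [hi])⟩
  | some j =>
    right
    obtain ⟨α, β, hab⟩ := h.aff i j x
    refine ⟨j, α, β, rfl, fun s => funext fun k => ?_⟩
    by_cases hk : k = j
    · subst hk
      simp [hab]
    · rw [update_of_ne hk]
      exact h.dep i k x s (by rw [hi]; intro e; exact hk (Option.some.inj e).symm)

theorem Good.comp {φ ψ : Fin d → Option (Fin d)} {F G : (Fin d → ℚ) → Fin d → ℚ}
    (hF : Good φ F) (hG : Good ψ G) :
    Good (fun i => (φ i).bind ψ) (fun x => G (F x)) where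
  dep i k x s h := by
    rcases hF.update_eq i x with ⟨_, h2⟩ | ⟨j, α, β, h1, h2⟩
    · simp only [h2]
    · simp only [h2]
      apply hG.dep
      simpa [h1] using h
  aff i k x := by
    rcases hF.update_eq i x with ⟨_, h2⟩ | ⟨j, α, β, h1, h2⟩
    · exact ⟨0, G (F x) k, fun s => by simp [h2]⟩
    · obtain ⟨α', β', h3⟩ := hG.aff j k (F x)
      exact ⟨α' * α, α' * β + β', fun s => by simp only [h2, h3]; ring⟩

/-- If `x` and `y` agree on all registers flowing into `j`, then `F x j = F y j`. -/
theorem Good.congr {φ : Fin d → Option (Fin d)} {F : (Fin d → ℚ) → Fin d → ℚ}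
    (h : Good φ F) (j : Fin d) (x y : Fin d → ℚ) (hxy : ∀ i, φ i = some j → x i = y i) :
    F x j = F y j := by
  classical
  have key : ∀ S : Finset (Fin d), ∀ x : Fin d → ℚ, (∀ i, φ i = some j → x i = y i) →
      (∀ i, i ∉ S → x i = y i) → F x j = F y j := by
    intro S
    induction S using Finset.induction_on with
    | empty =>
      intro x _ h2
      have : x = y := funext fun i => h2 i (by simp)
      rw [this]
    | insert i S _ ih =>
      intro x h1 h2
      have e : F (update x i (y i)) j = F x j := by
        by_cases hi : φ i = some j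
        · rw [← h1 i hi, update_eq_self]
        · exact h.dep i j x _ hi
      rw [← e]
      apply ih
      · intro k hk
        by_cases hki : k = i
        · subst hki; simp
        · rw [update_of_ne hki]; exact h1 k hk
      · intro k hk
        by_cases hki : k = i
        · subst hki; simp
        · rw [update_of_ne hki]; exact h2 k (by simp [hki, hk])
  exact key Finset.univ x hxy (by simp)

variable {A Q : Type}

open Classical in
/-- The flow of registers of one transition. -/
noncomputable def CCRA.flow (M : CCRA A Q d) (q : Q) (a : A) (i : Fin d) : Option (Fin d) :=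
  if h : ∃ j, (M.upd q a j).occ i ≠ 0 then some h.choose else none

theorem CCRA.good_step (M : CCRA A Q d) (q : Q) (a : A) :
    Good (M.flow q a) (fun x j => (M.upd q a j).eval x) where
  dep i j x s h := by
    apply Term.eval_update_of_occ_zero
    by_contra hne
    have hex : ∃ j, (M.upd q a j).occ i ≠ 0 := ⟨j, hne⟩
    have h1 : M.flow q a i = some hex.choose := by simp [CCRA.flow, hex]
    have h2 : hex.choose ≠ j := by
      intro e
      exact h (by rw [h1, e])
    have h3 := hex.choose_spec
    have h4 := M.upd_copyless q a i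
    have h5 : ∑ k ∈ ({hex.choose, j} : Finset (Fin d)), (M.upd q a k).occ i ≤
        ∑ k, (M.upd q a k).occ i :=
      Finset.sum_le_sum_of_subset (Finset.subset_univ _)
    rw [Finset.sum_pair h2] at h5
    omega
  aff i j x := by
    apply Term.affine_of_occ_le_one
    have h4 := M.upd_copyless q a i
    have h5 : (M.upd q a j).occ i ≤ ∑ k, (M.upd q a k).occ i :=
      Finset.single_le_sum (f := fun k => (M.upd q a k).occ i) (fun _ _ => Nat.zero_le _)
        (Finset.mem_univ j)
    omega

/-- The action of a letter on (state, tracked register). -/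
noncomputable def CCRA.stepX (M : CCRA A Q d) (c : Q × Option (Fin d)) (a : A) :
    Q × Option (Fin d) :=
  (M.next c.1 a, c.2.bind (M.flow c.1 a))

/-- The action of a word on (state, tracked register). -/
noncomputable def CCRA.act (M : CCRA A Q d) (w : List A) (c : Q × Option (Fin d)) :
    Q × Option (Fin d) :=
  w.foldl M.stepX c

/-- The run on a word from a configuration. -/
def CCRA.run (M : CCRA A Q d) (w : List A) (c : Q × (Fin d → ℚ)) : Q × (Fin d → ℚ) :=
  w.foldl M.step c

theorem CCRA.act_append (M : CCRA A Q d) (u v : List A) (c : Q × Option (Fin d)) :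
    M.act (u ++ v) c = M.act v (M.act u c) := by
  simp [CCRA.act, List.foldl_append]

theorem CCRA.run_append (M : CCRA A Q d) (u v : List A) (c : Q × (Fin d → ℚ)) :
    M.run (u ++ v) c = M.run v (M.run u c) := by
  simp [CCRA.run, List.foldl_append]

theorem CCRA.act_fst (M : CCRA A Q d) (w : List A) :
    ∀ (q : Q) (o : Option (Fin d)) (x : Fin d → ℚ), (M.act w (q, o)).1 = (M.run w (q, x)).1 := by
  induction w with
  | nil => intro q o x; rfl
  | cons a w ih =>
    intro q o x
    exact ih (M.next q a) _ _

theorem CCRA.act_none (M : CCRA A Q d) (w : List A) :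
    ∀ q : Q, (M.act w (q, none)).2 = none := by
  induction w with
  | nil => intro q; rfl
  | cons a w ih =>
    intro q
    exact ih (M.next q a)

theorem CCRA.good_run (M : CCRA A Q d) (w : List A) :
    ∀ q : Q, Good (fun i => (M.act w (q, some i)).2) (fun x => (M.run w (q, x)).2) := by
  induction w with
  | nil => intro q; exact Good.id
  | cons a w ih =>
    intro q
    have h := (M.good_step q a).comp (ih (M.next q a))
    have e : (fun i => (M.act (a :: w) (q, some i)).2) =
        fun i => (M.flow q a i).bind fun k => (M.act w (M.next q a, some k)).2 := by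
      funext i
      change (M.act w (M.next q a, M.flow q a i)).2 = _
      cases M.flow q a i with
      | none => exact M.act_none w _
      | some k => rfl
    rw [e]
    exact h

/-- Some positive iterate of a self-map of a finite type is idempotent. -/
theorem exists_idem_iterate {X : Type} [Finite X] (h : X → X) :
    ∃ K, 1 ≤ K ∧ ∀ k, 1 ≤ k → h^[K * k] = h^[K] := by
  obtain ⟨i, j, hij, he⟩ : ∃ i j, i < j ∧ h^[i] = h^[j] := by
    obtain ⟨i, j, hne, he⟩ := Finite.exists_ne_map_eq_of_infinite (fun n : ℕ => h^[n])
    rcases lt_or_gt_of_ne hne with hlt | hlt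
    · exact ⟨i, j, hlt, he⟩
    · exact ⟨j, i, hlt, he.symm⟩
  obtain ⟨p, rfl⟩ := Nat.exists_eq_add_of_lt hij
  have per : ∀ m n, h^[i + n + (p + 1) * m] = h^[i + n] := by
    intro m
    induction m with
    | zero => intro n; simp
    | succ m ih =>
      intro n
      have e1 : i + n + (p + 1) * (m + 1) = (n + (p + 1) * m) + (i + p + 1) := by ring
      have e2 : i + n + (p + 1) * m = (n + (p + 1) * m) + i := by ring
      rw [e1, iterate_add, ← he, ← iterate_add, ← e2, ih]
  refine ⟨(p + 1) * (i + 1), Nat.succ_le_of_lt (by positivity), fun k hk => ?_⟩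
  obtain ⟨k, rfl⟩ := Nat.exists_eq_add_of_le hk
  have e1 : (p + 1) * (i + 1) = i + (p * (i + 1) + 1) := by ring
  have e2 : (p + 1) * (i + 1) * (1 + k) = i + (p * (i + 1) + 1) + (p + 1) * ((i + 1) * k) := by ring
  rw [e2, per, ← e1]

/-- `w` repeated `n` times. -/
def rep (w : List A) : ℕ → List A
  | 0 => []
  | n + 1 => w ++ rep w n

theorem CCRA.act_rep (M : CCRA A Q d) (w : List A) (n : ℕ) :
    M.act (rep w n) = (M.act w)^[n] := by
  induction n with
  | zero => rfl
  | succ n ih =>
    funext c
    rw [rep, M.act_append, ih, iterate_succ_apply]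

theorem CCRA.run_rep (M : CCRA A Q d) (w : List A) (n : ℕ) :
    M.run (rep w n) = (M.run w)^[n] := by
  induction n with
  | zero => rfl
  | succ n ih =>
    funext c
    rw [rep, M.run_append, ih, iterate_succ_apply]

theorem rep_succ' (w : List A) (n : ℕ) : rep w (n + 1) = rep w n ++ w := by
  induction n with
  | zero => simp [rep]
  | succ n ih => rw [rep, ih, ← List.append_assoc, ← rep, ih]

theorem reverse_rep (w : List A) (n : ℕ) : (rep w n).reverse = rep w.reverse n := by
  induction n with
  | zero => rfl
  | succ n ih => rw [rep, List.reverse_append, ih, rep_succ']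

end Pool.Agent.P.MP_32a6cf_lc
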