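import Pool.Agent.P.MP_32a6cf_lc.Padic

namespace Pool.Agent.P.MP_32a6cf_lc

open Function

variable {A Q : Type} {d : ℕ}

open Classical in
/-- The witness: one state, registers `x, y`; the letter `a0` does `y := y + 1`, every other
letter does `x := x * y + 1, y := 0`; the output is `x`. -/
noncomputable def horner (a0 : A) : CCRA A Unit 2 where
  q0 := ()
  next _ _ := ()
  upd _ a := if a = a0 then ![.var 0, .add (.var 1) (.const 1)]
    else ![.add (.mul (.var 0) (.var 1)) (.const 1), .const 0]
  init := ![0, 0]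
  out _ := .var 0
  upd_copyless q a i := by
    by_cases h : a = a0 <;> fin_cases i <;> simp [h, Fin.sum_univ_two, Term.occ]
  out_copyless q i := by
    fin_cases i <;> simp [Term.occ]

theorem horner_count (a0 : A) (m : ℕ) (x y : ℚ) :
    (horner a0).run (rep [a0] m) ((), ![x, y]) = ((), ![x, y + m]) := by
  induction m generalizing y with
  | zero => simp [rep, CCRA.run]
  | succ m ih =>
    have e : (horner a0).run [a0] ((), ![x, y]) = ((), ![x, y + 1]) := by
      simp only [CCRA.run, List.foldl, CCRA.step, horner]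
      congr 1
      funext j
      fin_cases j <;> simp [Term.eval]
    rw [rep, CCRA.run_append, e, ih]
    congr 2
    push_cast
    ring_nf

theorem horner_block {a0 b : A} (hb : b ≠ a0) (m : ℕ) (x : ℚ) :
    (horner a0).run (rep [a0] m ++ [b]) ((), ![x, 0]) = ((), ![m * x + 1, 0]) := by
  rw [CCRA.run_append, horner_count]
  simp only [CCRA.run, List.foldl, CCRA.step, horner]
  congr 1
  funext j
  fin_cases j <;> simp [Term.eval, hb, mul_comm]

theorem horner_blocks {a0 b : A} (hb : b ≠ a0) (m n : ℕ) (x : ℚ) :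
    (horner a0).run (rep (rep [a0] m ++ [b]) n) ((), ![x, 0]) =
      ((), ![(fun x : ℚ => m * x + 1)^[n] x, 0]) := by
  induction n generalizing x with
  | zero => rfl
  | succ n ih => rw [rep, CCRA.run_append, horner_block hb, ih, iterate_succ_apply]

theorem horner_blocks' {a0 b : A} (hb : b ≠ a0) (m K n : ℕ) (x : ℚ) :
    (horner a0).run (rep (rep (rep [a0] m ++ [b]) K) n) ((), ![x, 0]) =
      ((), ![(fun x : ℚ => (m : ℚ) ^ K * x + geo m K)^[n] x, 0]) := by
  induction n generalizing x with
  | zero => rfl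
  | succ n ih =>
    rw [rep, CCRA.run_append, horner_blocks hb, ih, iterate_succ_apply, iter_affine (m : ℚ) 1 K x,
      one_mul]

theorem CCRA.value_eq (M : CCRA A Q d) (w : List A) :
    M.value w = (M.out (M.run w (M.q0, M.init)).1).eval (M.run w (M.q0, M.init)).2 := rfl

/-- All constants of the automaton are p-integral. -/
structure Integral (p : ℕ) [Fact p.Prime] (M : CCRA A Q d) : Prop where
  upd : ∀ q a j, ∀ c ∈ (M.upd q a j).consts, nv p c ≤ 1
  out : ∀ q, ∀ c ∈ (M.out q).consts, nv p c ≤ 1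
  init : ∀ j, nv p (M.init j) ≤ 1

theorem exists_integral [Finite A] [Finite Q] (M : CCRA A Q d) :
    ∃ (p : ℕ) (_ : Fact p.Prime), Integral p M := by
  have h1 : {c : ℚ | ∃ q a j, c ∈ (M.upd q a j).consts}.Finite := by
    have : {c : ℚ | ∃ q a j, c ∈ (M.upd q a j).consts} =
        ⋃ q, ⋃ a, ⋃ j, {c | c ∈ (M.upd q a j).consts} := by
      ext c; simp
    rw [this]
    exact Set.finite_iUnion fun q => Set.finite_iUnion fun a => Set.finite_iUnion fun j =>
      List.finite_toSet _
  have h2 : {c : ℚ | ∃ q, c ∈ (M.out q).consts}.Finite := by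
    have : {c : ℚ | ∃ q, c ∈ (M.out q).consts} = ⋃ q, {c | c ∈ (M.out q).consts} := by
      ext c; simp
    rw [this]
    exact Set.finite_iUnion fun q => List.finite_toSet _
  have h3 : (Set.range M.init).Finite := Set.finite_range _
  obtain ⟨N, hN⟩ := (((h1.union h2).union h3).image Rat.den).bddAbove
  obtain ⟨p, hpN, hp⟩ := Nat.exists_infinite_primes (N + 1)
  have : Fact p.Prime := ⟨hp⟩
  have key : ∀ c ∈ ({c : ℚ | ∃ q a j, c ∈ (M.upd q a j).consts} ∪
      {c : ℚ | ∃ q, c ∈ (M.out q).consts}) ∪ Set.range M.init, nv p c ≤ 1 := by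
    intro c hc
    apply nv_le_one_of_den_lt
    have := hN ⟨c, hc, rfl⟩
    omega
  exact ⟨p, this, fun q a j c hc => key c (Or.inl (Or.inl ⟨q, a, j, hc⟩)),
    fun q c hc => key c (Or.inl (Or.inr ⟨q, hc⟩)), fun j => key _ (Or.inr ⟨j, rfl⟩)⟩

theorem Integral.run {p : ℕ} [Fact p.Prime] {M : CCRA A Q d} (h : Integral p M) (w : List A) :
    ∀ c : Q × (Fin d → ℚ), (∀ j, nv p (c.2 j) ≤ 1) → ∀ j, nv p ((M.run w c).2 j) ≤ 1 := by
  induction w with
  | nil => intro c hc; exact hc
  | cons a w ih =>
    intro c hc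
    exact ih (M.step c a) fun j => Term.nv_eval_le p c.2 hc _ (h.upd _ _ _)

/-- On the invariant slice an idempotent-flow map acts coordinatewise by integral affine maps. -/
theorem scalar_form {p : ℕ} [Fact p.Prime] {φ : Fin d → Option (Fin d)}
    {F : (Fin d → ℚ) → Fin d → ℚ} (hF : Good φ F)
    (hint : ∀ x, (∀ j, nv p (x j) ≤ 1) → ∀ j, nv p (F x j) ≤ 1)
    (x0 : Fin d → ℚ) (hx0 : ∀ j, nv p (x0 j) ≤ 1) (j : Fin d) :
    ∃ a b : ℚ, nv p a ≤ 1 ∧ nv p b ≤ 1 ∧
      ∀ x : Fin d → ℚ, (∀ i, φ i ≠ some i → x i = x0 i) → F x j = a * x j + b := by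
  obtain ⟨α, β, h⟩ := hF.aff j j x0
  have hup : ∀ s : ℚ, nv p s ≤ 1 → ∀ k, nv p (update x0 j s k) ≤ 1 := by
    intro s hs k
    by_cases hk : k = j
    · subst hk; simpa using hs
    · rw [update_of_ne hk]; exact hx0 k
  have hβ : nv p β ≤ 1 := by
    have := hint _ (hup 0 (by simp [nv_zero])) j
    rwa [h, mul_zero, zero_add] at this
  have hα : nv p α ≤ 1 := by
    have h1 := hint _ (hup 1 (by simp [nv_one])) j
    rw [h, mul_one] at h1
    have := nv_sub_le_one p h1 hβ
    rwa [add_sub_cancel_right] at this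
  refine ⟨α, β, hα, hβ, fun x hx => ?_⟩
  rw [← h]
  apply hF.congr
  intro i hi
  by_cases hij : i = j
  · subst hij; simp
  · rw [update_of_ne hij]
    apply hx
    rw [hi]
    intro e
    exact hij (Option.some.inj e).symm

theorem not_recognisable [Finite A] {a0 b : A} (hb : b ≠ a0) :
    ¬ Recognisable (fun w => (horner a0).value w.reverse) := by
  rintro ⟨Q, hQ, d, M, hM⟩
  obtain ⟨p, hp, hint⟩ := exists_integral M
  -- idempotent powers
  obtain ⟨M0, hM0, hidem0⟩ := exists_idem_iterate (M.act [a0])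
  have hp1 : 1 ≤ p := hp.out.one_le
  have hp2 : 2 ≤ p := hp.out.two_le
  let s : Q × Option (Fin d) → Q × Option (Fin d) := fun c => (M.act [a0])^[M0] (M.act [b] c)
  have hs : ∀ k, 1 ≤ k → M.act ([b] ++ rep [a0] (M0 * k)) = s := by
    intro k hk
    funext c
    rw [M.act_append, M.act_rep, hidem0 k hk]
  obtain ⟨K, hK, hidem⟩ := exists_idem_iterate s
  set m : ℕ := M0 * p with hm
  set m' : ℕ := M0 * (2 * p) with hm'
  let u : List A := rep ([b] ++ rep [a0] m) K
  let v : List A := rep ([b] ++ rep [a0] m') K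
  have hu : M.act u = s^[K] := by rw [M.act_rep, hs p hp1]
  have hv : M.act v = s^[K] := by rw [M.act_rep, hs (2 * p) (by omega)]
  have hee : ∀ c, s^[K] (s^[K] c) = s^[K] c := by
    intro c
    rw [← iterate_add_apply, ← mul_two, hidem 2 (by norm_num)]
  have hvu : M.act (v ++ u) = s^[K] := by
    funext c
    rw [M.act_append, hu, hv, hee]
  -- the stable state
  let q : Q := (M.run u (M.q0, M.init)).1
  have hq0 : (s^[K] (M.q0, none)).1 = q := by rw [← hu]; exact M.act_fst u _ _ _
  have hq1 : s^[K] (M.q0, none) = (q, none) := by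
    refine Prod.ext hq0 ?_
    rw [← hu]; exact M.act_none u _
  have hq2 : s^[K] (q, none) = (q, none) := by rw [← hq1, hee]
  have hqo : ∀ o, (s^[K] (q, o)).1 = q := by
    intro o
    have h1 : (M.act u (q, o)).1 = (M.act u (q, none)).1 := by
      rw [M.act_fst u q o M.init, M.act_fst u q none M.init]
    rw [← hu, h1, hu, hq2]
  have hqu : ∀ x, (M.run u (q, x)).1 = q := by
    intro x
    rw [← M.act_fst u q none x, hu, hq2]
  have hqv : ∀ x, (M.run v (q, x)).1 = q := by
    intro x
    rw [← M.act_fst v q none x, hv, hq2]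
  let φ : Fin d → Option (Fin d) := fun i => (s^[K] (q, some i)).2
  have hφ : ∀ i j, φ i = some j → φ j = some j := by
    intro i j hij
    have h1 : s^[K] (q, some i) = (q, some j) := Prod.ext (hqo _) hij
    have h2 := hee (q, some i)
    rw [h1] at h2
    change (s^[K] (q, some j)).2 = some j
    rw [h2]
  let U : (Fin d → ℚ) → Fin d → ℚ := fun x => (M.run u (q, x)).2
  let V : (Fin d → ℚ) → Fin d → ℚ := fun x => (M.run (v ++ u) (q, x)).2
  have hU : Good φ U := by
    have := M.good_run u q
    rwa [hu] at this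
  have hV : Good φ V := by
    have := M.good_run (v ++ u) q
    rwa [hvu] at this
  have runU : ∀ x, M.run u (q, x) = (q, U x) := fun x => Prod.ext (hqu x) rfl
  have hVU : ∀ x, V x = U (M.run v (q, x)).2 := by
    intro x
    change (M.run (v ++ u) (q, x)).2 = _
    rw [M.run_append]
    have : M.run v (q, x) = (q, (M.run v (q, x)).2) := Prod.ext (hqv x) rfl
    rw [this]
  have runV : ∀ x, M.run (v ++ u) (q, x) = (q, V x) := by
    intro x
    refine Prod.ext ?_ rfl
    rw [M.run_append]
    have : M.run v (q, x) = (q, (M.run v (q, x)).2) := Prod.ext (hqv x) rfl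
    rw [this]
    exact hqu _
  have runUn : ∀ n x, M.run (rep u n) (q, x) = (q, U^[n] x) := by
    intro n
    induction n with
    | zero => intro x; rfl
    | succ n ih => intro x; rw [rep, M.run_append, runU, ih, iterate_succ_apply]
  let x1 : Fin d → ℚ := (M.run u (M.q0, M.init)).2
  let x0 : Fin d → ℚ := U x1
  have hx1 : ∀ j, nv p (x1 j) ≤ 1 := hint.run u _ hint.init
  have hUint : ∀ x, (∀ j, nv p (x j) ≤ 1) → ∀ j, nv p (U x j) ≤ 1 :=
    fun x hx => hint.run u (q, x) hx
  have hVint : ∀ x, (∀ j, nv p (x j) ≤ 1) → ∀ j, nv p (V x j) ≤ 1 :=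
    fun x hx => hint.run (v ++ u) (q, x) hx
  have hx0 : ∀ j, nv p (x0 j) ≤ 1 := hUint x1 hx1
  have run0 : M.run (rep u 2) (M.q0, M.init) = (q, x0) := by
    rw [rep, M.run_append]
    have : M.run u (M.q0, M.init) = (q, x1) := rfl
    rw [this, runUn]
    rfl
  have hUS : ∀ x i, φ i ≠ some i → U x i = x0 i := by
    intro x i hi
    apply hU.congr
    intro k hk
    exact absurd (hφ k i hk) hi
  have hVS : ∀ x i, φ i ≠ some i → V x i = x0 i := by
    intro x i hi
    rw [hVU]
    exact hUS _ i hi
  choose a bb ha hbb hab using scalar_form hU hUint x0 hx0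
  choose a' bb' ha' hbb' hab' using scalar_form hV hVint x0 hx0
  have hUn : ∀ n x, (∀ i, φ i ≠ some i → x i = x0 i) →
      (∀ i, φ i ≠ some i → U^[n] x i = x0 i) ∧
        ∀ j, U^[n] x j = (fun y => a j * y + bb j)^[n] (x j) := by
    intro n
    induction n with
    | zero => intro x hx; exact ⟨hx, fun j => rfl⟩
    | succ n ih =>
      intro x hx
      obtain ⟨h1, h2⟩ := ih (U x) (hUS x)
      refine ⟨by simpa only [iterate_succ_apply] using h1, fun j => ?_⟩
      rw [iterate_succ_apply, iterate_succ_apply, h2, hab j x hx]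
  have hUnint : ∀ n x, (∀ j, nv p (x j) ≤ 1) → ∀ j, nv p (U^[n] x j) ≤ 1 := by
    intro n
    induction n with
    | zero => intro x hx; exact hx
    | succ n ih => intro x hx; rw [iterate_succ_apply]; exact ih _ (hUint x hx)
  -- the words
  let w : ℕ → ℕ → List A := fun n r => rep u 2 ++ rep u n ++ (v ++ u) ++ rep u r
  have runw : ∀ n r, M.run (w n r) (M.q0, M.init) = (q, U^[r] (V (U^[n] x0))) := by
    intro n r
    simp only [w]
    rw [M.run_append _ (rep u r), M.run_append _ (v ++ u), M.run_append (rep u 2), run0, runUn,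
      runV, runUn]
  have regw : ∀ n r j, U^[r] (V (U^[n] x0)) j =
      (fun y => a j * y + bb j)^[r] (a' j * (fun y => a j * y + bb j)^[n] (x0 j) + bb' j) := by
    intro n r j
    obtain ⟨h1, h2⟩ := hUn n x0 (fun _ _ => rfl)
    rw [(hUn r _ (hVS _)).2 j, hab' j _ h1, h2]
  -- the target values
  set α : ℚ := (m : ℚ) ^ K with hα
  set β : ℚ := geo m K with hβ
  set α' : ℚ := (m' : ℚ) ^ K with hα'
  set β' : ℚ := geo m' K with hβ'
  have hur : u.reverse = rep (rep [a0] m ++ [b]) K := by
    simp only [u]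
    rw [reverse_rep, List.reverse_append, reverse_rep]
    rfl
  have hvr : v.reverse = rep (rep (rep [a0] m' ++ [b]) K) 1 := by
    simp only [v]
    rw [reverse_rep, List.reverse_append, reverse_rep]
    simp [rep]
  have hur1 : u.reverse = rep (rep (rep [a0] m ++ [b]) K) 1 := by
    rw [hur]; simp [rep]
  have valw : ∀ n r, (horner a0).value (w n r).reverse =
      (fun y => α * y + β)^[2 + n] (α' * (fun y => α * y + β)^[r] (α * 0 + β) + β') := by
    intro n r
    have e : (horner a0).run (w n r).reverse ((), ![0, 0]) =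
        ((), ![(fun y => α * y + β)^[2 + n]
          (α' * (fun y => α * y + β)^[r] (α * 0 + β) + β'), 0]) := by
      simp only [w, List.reverse_append, reverse_rep]
      rw [CCRA.run_append, CCRA.run_append, CCRA.run_append, CCRA.run_append]
      rw [hvr]
      nth_rewrite 3 [hur1]
      rw [hur, horner_blocks' hb, horner_blocks' hb, horner_blocks' hb, horner_blocks' hb,
        horner_blocks' hb, ← iterate_add_apply, iterate_one, iterate_one]
      rw [← iterate_succ_apply (fun y => α * y + β) r 0, iterate_succ_apply']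
    rw [CCRA.value_eq]
    change Term.eval ((horner a0).run (w n r).reverse ((), ![0, 0])).2 (.var 0) = _
    rw [e]
    simp [Term.eval]
  -- the commutator constant is nonzero
  have hm2 : (2 : ℚ) ≤ m := by
    have : 2 ≤ m := by rw [hm]; nlinarith
    exact_mod_cast this
  have hmm : (m' : ℚ) = 2 * m := by rw [hm, hm']; push_cast; ring
  have hα1 : 1 - α ≠ 0 := by
    have : (1 : ℚ) < α := one_lt_pow₀ (by linarith) (by omega)
    linarith
  have hα1' : 1 - α' ≠ 0 := by
    have : (1 : ℚ) < α' := one_lt_pow₀ (by linarith) (by omega)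
    linarith
  have g1 : β * (1 - m) = 1 - α := geo_mul _ _
  have g2 : β' * (1 - m') = 1 - α' := geo_mul _ _
  set κ : ℚ := α * β' + β - α' * β - β' with hκ
  have hκ0 : κ ≠ 0 := by
    intro h0
    have h1 : κ * ((1 - m) * (1 - m')) = (1 - α) * (1 - α') * (m - m') := by
      rw [hκ]
      linear_combination (1 - α') * (1 - m') * g1 - (1 - α) * (1 - m) * g2
    rw [h0, zero_mul] at h1
    have h2 : (m : ℚ) - m' ≠ 0 := by rw [hmm]; linarith
    exact (mul_ne_zero (mul_ne_zero hα1 hα1') h2) h1.symm
  have hα0 : α ≠ 0 := pow_ne_zero _ (by linarith)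
  have hmlt : nv p (m : ℚ) < 1 := nv_natCast_mul_lt p M0
  have hαlt : nv p α < 1 := by
    rw [hα, nv_pow]
    exact pow_lt_one₀ (nv_nonneg p _) hmlt (by omega)
  have hε : 0 < nv p (κ * α ^ 2) := nv_pos p (mul_ne_zero hκ0 (pow_ne_zero _ hα0))
  obtain ⟨r, t, ht, hclose⟩ := exists_close p (fun n j => geo (a j) n)
    (fun n j => nv_geo_le p (ha j) n) hε
  -- automaton side
  have side1 : nv p (M.value (w 0 (r + t)) - M.value (w t r)) < nv p (κ * α ^ 2) := by
    rw [CCRA.value_eq, CCRA.value_eq, runw, runw]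
    apply Term.nv_eval_sub_lt p _ _ _ _ hε _ _ (hint.out q)
    · exact hUnint _ _ (hVint _ (hUnint _ _ hx0))
    · exact hUnint _ _ (hVint _ (hUnint _ _ hx0))
    · intro j
      simp only
      rw [regw, regw, iterate_zero_apply, slide]
      refine nv_mul_lt_left p ?_ (hclose j)
      exact nv_sub_le_one p (nv_sub_le_one p (nv_add_le_one p (nv_mul_le_one p (ha j) (hbb' j))
        (hbb j)) (nv_mul_le_one p (ha' j) (hbb j))) (hbb' j)
  -- target side
  have side2 : nv p (M.value (w 0 (r + t)) - M.value (w t r)) = nv p (κ * α ^ 2) := by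
    rw [hM, hM]
    simp only
    rw [valw, valw, ← nv_neg, neg_sub, add_comm r t, iterate_add_apply _ t r, add_zero,
      slide, ← hκ]
    have e : ∀ t : ℕ, geo α (2 + (t + 1)) - geo α 2 = α ^ 2 * (1 + α * geo α t) := by
      intro t
      induction t with
      | zero => simp [geo]
      | succ t ih =>
        have e1 : geo α (2 + (t + 1 + 1)) = geo α (2 + (t + 1)) + α ^ (2 + (t + 1)) := rfl
        have e2 : geo α (t + 1) = geo α t + α ^ t := rfl
        rw [e1, e2]
        linear_combination ih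
    obtain ⟨t', rfl⟩ := Nat.exists_eq_add_of_le' ht
    rw [e, ← mul_assoc, nv_mul, nv_one_add p (nv_mul_lt_right p hαlt (nv_geo_le p hαlt.le t')),
      mul_one]
  exact absurd side2 side1.ne

end Pool.Agent.P.MP_32a6cf_lc
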