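import Pool.Agent.P.MP_32a6cf_lc.Flow

namespace Pool.Agent.P.MP_32a6cf_lc

open Function

variable {d : ℕ}

/-- The list of constants of a term. -/
def Term.consts : Term d → List ℚ
  | .var _ => []
  | .const c => [c]
  | .add s t => s.consts ++ t.consts
  | .mul s t => s.consts ++ t.consts

section
variable (p : ℕ) [hp : Fact p.Prime]

/-- The p-adic absolute value of a rational number. -/
noncomputable def nv (x : ℚ) : ℝ := ‖(x : ℚ_[p])‖

theorem nv_nonneg (x : ℚ) : 0 ≤ nv p x := norm_nonneg _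

theorem nv_mul (x y : ℚ) : nv p (x * y) = nv p x * nv p y := by
  simp [nv]

theorem nv_pow (x : ℚ) (n : ℕ) : nv p (x ^ n) = nv p x ^ n := by
  simp [nv]

theorem nv_neg (x : ℚ) : nv p (-x) = nv p x := by
  simp [nv]

theorem nv_zero : nv p 0 = 0 := by simp [nv]

theorem nv_one : nv p 1 = 1 := by simp [nv]

theorem nv_add (x y : ℚ) : nv p (x + y) ≤ max (nv p x) (nv p y) := by
  simp only [nv, Rat.cast_add]
  exact Padic.nonarchimedean _ _

theorem nv_pos {x : ℚ} (hx : x ≠ 0) : 0 < nv p x := by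
  simp only [nv, norm_pos_iff]
  exact_mod_cast hx

theorem nv_add_le_one {x y : ℚ} (hx : nv p x ≤ 1) (hy : nv p y ≤ 1) : nv p (x + y) ≤ 1 :=
  (nv_add p x y).trans (max_le hx hy)

theorem nv_sub_le_one {x y : ℚ} (hx : nv p x ≤ 1) (hy : nv p y ≤ 1) : nv p (x - y) ≤ 1 := by
  rw [sub_eq_add_neg]
  exact nv_add_le_one p hx (by rwa [nv_neg])

theorem nv_mul_le_one {x y : ℚ} (hx : nv p x ≤ 1) (hy : nv p y ≤ 1) : nv p (x * y) ≤ 1 := by
  rw [nv_mul]
  exact mul_le_one₀ hx (nv_nonneg p y) hy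

theorem nv_add_lt {x y : ℚ} {ε : ℝ} (hx : nv p x < ε) (hy : nv p y < ε) : nv p (x + y) < ε :=
  (nv_add p x y).trans_lt (max_lt hx hy)

theorem nv_mul_lt_left {x y : ℚ} {ε : ℝ} (hx : nv p x ≤ 1) (hy : nv p y < ε) :
    nv p (x * y) < ε := by
  rw [nv_mul]
  exact (mul_le_of_le_one_left (nv_nonneg p y) hx).trans_lt hy

theorem nv_mul_lt_right {x y : ℚ} {ε : ℝ} (hx : nv p x < ε) (hy : nv p y ≤ 1) :
    nv p (x * y) < ε := by
  rw [mul_comm]
  exact nv_mul_lt_left p hy hx

theorem nv_one_add {x : ℚ} (hx : nv p x < 1) : nv p (1 + x) = 1 := by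
  apply le_antisymm
  · exact nv_add_le_one p (by rw [nv_one]) hx.le
  · by_contra hlt
    push Not at hlt
    have h1 : nv p (1 + x + -x) < 1 := nv_add_lt p hlt (by rwa [nv_neg])
    have h2 : (1 + x + -x : ℚ) = 1 := by ring
    rw [h2, nv_one] at h1
    exact lt_irrefl _ h1

theorem nv_natCast_mul_lt (k : ℕ) : nv p ((k * p : ℕ) : ℚ) < 1 := by
  have h : ‖(((k * p : ℕ) : ℤ) : ℚ_[p])‖ < 1 :=
    Padic.norm_intCast_lt_one_iff.2 (by push_cast; exact Dvd.intro_left _ rfl)
  simpa [nv] using h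

theorem nv_le_one_of_den_lt {x : ℚ} (hx : x.den < p) : nv p x ≤ 1 := by
  apply Padic.norm_rat_le_one
  intro h
  exact absurd (Nat.le_of_dvd x.den_pos h) (by omega)

theorem Term.nv_eval_le (x : Fin d → ℚ) (hx : ∀ i, nv p (x i) ≤ 1) :
    ∀ t : Term d, (∀ c ∈ t.consts, nv p c ≤ 1) → nv p (t.eval x) ≤ 1
  | .var i, _ => hx i
  | .const c, h => h c (by simp [Term.consts])
  | .add s t, h => nv_add_le_one p
      (nv_eval_le x hx s fun c hc => h c (by simp [Term.consts, hc]))
      (nv_eval_le x hx t fun c hc => h c (by simp [Term.consts, hc]))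
  | .mul s t, h => nv_mul_le_one p
      (nv_eval_le x hx s fun c hc => h c (by simp [Term.consts, hc]))
      (nv_eval_le x hx t fun c hc => h c (by simp [Term.consts, hc]))

theorem Term.nv_eval_sub_lt (x y : Fin d → ℚ) (hx : ∀ i, nv p (x i) ≤ 1)
    (hy : ∀ i, nv p (y i) ≤ 1) {ε : ℝ} (hε : 0 < ε) (hxy : ∀ i, nv p (x i - y i) < ε) :
    ∀ t : Term d, (∀ c ∈ t.consts, nv p c ≤ 1) → nv p (t.eval x - t.eval y) < ε
  | .var i, _ => hxy i
  | .const c, _ => by simpa [Term.eval, nv_zero] using hε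
  | .add s t, h => by
      have hs : ∀ c ∈ s.consts, nv p c ≤ 1 := fun c hc => h c (by simp [Term.consts, hc])
      have ht : ∀ c ∈ t.consts, nv p c ≤ 1 := fun c hc => h c (by simp [Term.consts, hc])
      have e : (Term.add s t).eval x - (Term.add s t).eval y =
          (s.eval x - s.eval y) + (t.eval x - t.eval y) := by simp only [Term.eval]; ring
      rw [e]
      exact nv_add_lt p (nv_eval_sub_lt x y hx hy hε hxy s hs) (nv_eval_sub_lt x y hx hy hε hxy t ht)
  | .mul s t, h => by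
      have hs : ∀ c ∈ s.consts, nv p c ≤ 1 := fun c hc => h c (by simp [Term.consts, hc])
      have ht : ∀ c ∈ t.consts, nv p c ≤ 1 := fun c hc => h c (by simp [Term.consts, hc])
      have e : (Term.mul s t).eval x - (Term.mul s t).eval y =
          s.eval x * (t.eval x - t.eval y) + (s.eval x - s.eval y) * t.eval y := by
        simp only [Term.eval]; ring
      rw [e]
      exact nv_add_lt p
        (nv_mul_lt_left p (Term.nv_eval_le p x hx s hs) (nv_eval_sub_lt x y hx hy hε hxy t ht))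
        (nv_mul_lt_right p (nv_eval_sub_lt x y hx hy hε hxy s hs) (Term.nv_eval_le p y hy t ht))

/-- Pigeonhole: a sequence of p-integral vectors has two p-adically close members. -/
theorem exists_close (z : ℕ → Fin d → ℚ) (hz : ∀ n j, nv p (z n j) ≤ 1) {ε : ℝ} (hε : 0 < ε) :
    ∃ r t, 1 ≤ t ∧ ∀ j, nv p (z (r + t) j - z r j) < ε := by
  have hp1 : (1 : ℝ) < p := by exact_mod_cast hp.out.one_lt
  obtain ⟨L, hL⟩ : ∃ L : ℕ, (p : ℝ) ^ (-L : ℤ) < ε := by
    obtain ⟨L, hL⟩ := exists_pow_lt_of_lt_one hε (inv_lt_one_of_one_lt₀ hp1)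
    exact ⟨L, by rwa [zpow_neg, zpow_natCast, ← inv_pow]⟩
  let Z : ℕ → Fin d → ℤ_[p] := fun n j => ⟨(z n j : ℚ_[p]), hz n j⟩
  haveI : NeZero (p ^ L) := ⟨pow_ne_zero _ hp.out.ne_zero⟩
  have close : ∀ a b, (fun j => PadicInt.toZModPow L (Z a j)) =
      (fun j => PadicInt.toZModPow L (Z b j)) → ∀ j, nv p (z a j - z b j) < ε := by
    intro a b hab j
    have h1 : Z a j - Z b j ∈ RingHom.ker (PadicInt.toZModPow (p := p) L) := by
      rw [RingHom.mem_ker, map_sub, congrFun hab j, sub_self]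
    rw [PadicInt.ker_toZModPow, ← PadicInt.norm_le_pow_iff_mem_span_pow] at h1
    have h2 : ‖Z a j - Z b j‖ = nv p (z a j - z b j) := by
      rw [PadicInt.norm_def]
      simp [nv, Z]
    rw [← h2]
    exact h1.trans_lt hL
  obtain ⟨a, b, hne, hab⟩ := Finite.exists_ne_map_eq_of_infinite
    (fun n : ℕ => fun j => PadicInt.toZModPow L (Z n j))
  rcases lt_or_gt_of_ne hne with hlt | hlt
  · refine ⟨a, b - a, by omega, fun j => ?_⟩
    rw [show a + (b - a) = b by omega]
    exact close b a hab.symm j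
  · refine ⟨b, a - b, by omega, fun j => ?_⟩
    rw [show b + (a - b) = a by omega]
    exact close a b hab j

end

/-- Partial geometric sums. -/
def geo (a : ℚ) : ℕ → ℚ
  | 0 => 0
  | n + 1 => geo a n + a ^ n

theorem nv_geo_le (p : ℕ) [Fact p.Prime] {a : ℚ} (ha : nv p a ≤ 1) : ∀ n, nv p (geo a n) ≤ 1
  | 0 => by simp [geo, nv_zero]
  | n + 1 => nv_add_le_one p (nv_geo_le p ha n)
      (by rw [nv_pow]; exact pow_le_one₀ (nv_nonneg p a) ha)

theorem geo_mul (a : ℚ) : ∀ n, geo a n * (1 - a) = 1 - a ^ n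
  | 0 => by simp [geo]
  | n + 1 => by rw [geo, add_mul, geo_mul a n]; ring

theorem iter_affine (a b : ℚ) (n : ℕ) (s : ℚ) :
    (fun x => a * x + b)^[n] s = a ^ n * s + b * geo a n := by
  induction n generalizing s with
  | zero => simp [geo]
  | succ n ih =>
    rw [iterate_succ_apply, ih, geo]
    ring

/-- Moving an affine map `W` through iterates of an affine map `T`. -/
theorem slide (a b a' b' : ℚ) (r t : ℕ) (z : ℚ) :
    (fun x => a * x + b)^[r + t] (a' * z + b') -
      (fun x => a * x + b)^[r] (a' * (fun x => a * x + b)^[t] z + b') =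
      (a * b' + b - a' * b - b') * (geo a (r + t) - geo a r) := by
  induction t generalizing z with
  | zero => simp
  | succ t ih =>
    have h := ih (a * z + b)
    rw [iterate_succ_apply (fun x => a * x + b) t z]
    have e : (fun x => a * x + b)^[r + (t + 1)] (a' * z + b') -
        (fun x => a * x + b)^[r + t] (a' * (a * z + b) + b') =
        (a * b' + b - a' * b - b') * a ^ (r + t) := by
      rw [← add_assoc, iterate_succ_apply, iter_affine, iter_affine]
      ring
    rw [← add_assoc r t 1, geo, add_assoc r t 1]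
    linear_combination h + e

end Pool.Agent.P.MP_32a6cf_lc
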